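import Pool.Agent.H964.CW.Stm3
import Pool.Agent.H784.QC.OVL
import Pool.Agent.H791.QC.FIN

/-! # Project CW (helper964): the frozen statement from the main theorem, task FINF (by helper790) -/

set_option autoImplicit false

open MeasureTheory ProbabilityTheory Filter Finset Topology

namespace Pool.Agent.H790.CW

open Pool.Agent.H964.QC Pool.Agent.H964.CW

/-! ## counting -/

theorem pos_full {n : ℕ} (s : Fin n → Fin 4) : pos s n = ∑ i, stp (s i) := by
  unfold pos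
  congr 1
  ext i
  simp

theorem card_eq (n : ℕ) :
    ((Finset.univ.filter (fun p : (Fin n → Fin 4) × (Fin n → Fin 4) =>
      ∑ i, (![((1 : ℤ), (0 : ℤ)), (-1, 0), (0, 1), (0, -1)] : Fin 4 → ℤ × ℤ) (p.1 i)
        = ∑ i, (![((1 : ℤ), (0 : ℤ)), (-1, 0), (0, 1), (0, -1)] : Fin 4 → ℤ × ℤ) (p.2 i))).card : ℝ)
      / (16 : ℝ) ^ n = rr n := by
  have h1 := Pool.Agent.H784.QC.OVL.count (n := n) (k := n) le_rfl
  have h2 : ((Finset.univ.filter (fun p : (Fin n → Fin 4) × (Fin n → Fin 4) =>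
      ∑ i, (![((1 : ℤ), (0 : ℤ)), (-1, 0), (0, 1), (0, -1)] : Fin 4 → ℤ × ℤ) (p.1 i)
        = ∑ i, (![((1 : ℤ), (0 : ℤ)), (-1, 0), (0, 1), (0, -1)] : Fin 4 → ℤ × ℤ) (p.2 i))).card : ℝ) =
      ∑ s : Fin n → Fin 4, ∑ s2 : Fin n → Fin 4, (if pos s n = pos s2 n then (1 : ℝ) else 0) := by
    rw [Finset.card_filter, Nat.cast_sum, Fintype.sum_prod_type]
    refine Finset.sum_congr rfl fun s _ => Finset.sum_congr rfl fun s2 _ => ?_
    rw [pos_full, pos_full]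
    show (((if ∑ i, stp (s i) = ∑ i, stp (s2 i) then 1 else 0 : ℕ)) : ℝ) = _
    split_ifs <;> simp
  rw [h2, h1, rr, Nat.sub_self, pow_zero, one_mul, div_pow]
  congr 1
  rw [← pow_mul, mul_comm n 2, pow_mul]
  norm_num

/-! ## mean and variance -/

theorem vari {Ω : Type} [MeasurableSpace Ω] (P : Measure Ω) [IsProbabilityMeasure P]
    (X D : Ω → ℝ) (c A B K : ℝ) (hD : Sq P D A) (hD0 : ∫ ω, D ω ∂P = 0)
    (hB : B ≤ ∫ ω, (D ω) ^ 2 ∂P) (hR : Sq P (fun ω => X ω + c - D ω) K) :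
    |(∫ ω, X ω ∂P) + c| ≤ (1 + K) / 2 ∧ variance X P ≤ 2 * A + 2 * K ∧
      B / 2 - K ≤ variance X P := by
  obtain ⟨R, hRdef⟩ : ∃ R : Ω → ℝ, R = fun ω => X ω + c - D ω := ⟨_, rfl⟩
  rw [← hRdef] at hR
  have hX : X = fun ω => D ω + R ω - c := by
    funext ω
    rw [hRdef]
    ring
  have hD2 := hD.1
  have hR2 := hR.1
  have hDi : Integrable D P := hD2.integrable (by norm_num)
  have hRi : Integrable R P := hR2.integrable (by norm_num)
  have hRsq : Integrable (fun ω => R ω ^ 2) P := hR2.integrable_sq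
  have hDsq : Integrable (fun ω => D ω ^ 2) P := hD2.integrable_sq
  obtain ⟨m, hm⟩ : ∃ m : ℝ, m = ∫ ω, R ω ∂P := ⟨_, rfl⟩
  have hEX : ∫ ω, X ω ∂P = m - c := by
    rw [hX]
    have h1 : ∫ ω, (D ω + R ω - c) ∂P = ∫ ω, (D ω + R ω) ∂P - ∫ _ω, c ∂P :=
      integral_sub (hDi.add hRi) (integrable_const c)
    rw [h1, integral_add hDi hRi, hD0, zero_add, ← hm]
    simp
  have hmabs : |m| ≤ (1 + K) / 2 := by
    have h1 : |m| ≤ ∫ ω, |R ω| ∂P := by
      rw [hm]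
      exact abs_integral_le_integral_abs
    have h2 : ∫ ω, |R ω| ∂P ≤ ∫ ω, ((1 + R ω ^ 2) / 2) ∂P := by
      refine integral_mono hRi.abs (((integrable_const (1 : ℝ)).add hRsq).div_const 2) ?_
      intro ω
      have h3 := sq_nonneg (|R ω| - 1)
      have h4 := sq_abs (R ω)
      show |R ω| ≤ (1 + R ω ^ 2) / 2
      nlinarith
    have h3 : ∫ ω, ((1 + R ω ^ 2) / 2) ∂P = (1 + ∫ ω, R ω ^ 2 ∂P) / 2 := by
      rw [integral_div, integral_add (integrable_const (1 : ℝ)) hRsq]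
      simp
    have h4 := hR.2
    rw [h3] at h2
    linarith
  have hRm : MemLp (fun ω => R ω - m) 2 P := hR2.sub (memLp_const m)
  have hRmsq : Integrable (fun ω => (R ω - m) ^ 2) P := hRm.integrable_sq
  have hRv : ∫ ω, (R ω - m) ^ 2 ∂P ≤ K := by
    have h1 : variance R P = ∫ ω, (R ω - m) ^ 2 ∂P := by
      rw [variance_eq_integral hRi.aemeasurable, hm]
    have h2 := variance_le_expectation_sq (μ := P) (X := R) hR2.aestronglyMeasurable
    rw [← h1]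
    refine h2.trans ?_
    exact hR.2
  have hXm : AEMeasurable X P := by
    rw [hX]
    exact ((hDi.add hRi).sub (integrable_const c)).aemeasurable
  have hvar : variance X P = ∫ ω, (D ω + (R ω - m)) ^ 2 ∂P := by
    rw [variance_eq_integral hXm, hEX]
    refine integral_congr_ae (Eventually.of_forall fun ω => ?_)
    show (X ω - (m - c)) ^ 2 = (D ω + (R ω - m)) ^ 2
    rw [hX]
    ring
  have hsum : Integrable (fun ω => (D ω + (R ω - m)) ^ 2) P := (hD2.add hRm).integrable_sq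
  refine ⟨?_, ?_, ?_⟩
  · rw [hEX]
    have e : m - c + c = m := by ring
    rw [e]
    exact hmabs
  · rw [hvar]
    have h1 : ∫ ω, (D ω + (R ω - m)) ^ 2 ∂P ≤ ∫ ω, (2 * D ω ^ 2 + 2 * (R ω - m) ^ 2) ∂P := by
      refine integral_mono hsum ((hDsq.const_mul 2).add (hRmsq.const_mul 2)) ?_
      intro ω
      show (D ω + (R ω - m)) ^ 2 ≤ 2 * D ω ^ 2 + 2 * (R ω - m) ^ 2
      nlinarith [sq_nonneg (D ω - (R ω - m))]
    rw [integral_add (hDsq.const_mul 2) (hRmsq.const_mul 2), integral_const_mul,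
      integral_const_mul] at h1
    have h2 := hD.2
    linarith
  · rw [hvar]
    have h1 : ∫ ω, D ω ^ 2 ∂P ≤ ∫ ω, (2 * (D ω + (R ω - m)) ^ 2 + 2 * (R ω - m) ^ 2) ∂P := by
      refine integral_mono hDsq ((hsum.const_mul 2).add (hRmsq.const_mul 2)) ?_
      intro ω
      show D ω ^ 2 ≤ 2 * (D ω + (R ω - m)) ^ 2 + 2 * (R ω - m) ^ 2
      nlinarith [sq_nonneg (D ω + 2 * (R ω - m))]
    rw [integral_add (hsum.const_mul 2) (hRmsq.const_mul 2), integral_const_mul,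
      integral_const_mul] at h1
    linarith

/-! ## one `N` -/

theorem key (hLINK : S_LINK) (μ : Measure ℝ) [IsProbabilityMeasure μ] {Ω : Type}
    [MeasurableSpace Ω] (P : Measure Ω) [IsProbabilityMeasure P] (om : ℕ × (ℤ × ℤ) → Ω → ℝ)
    (hm : ∀ p, Measurable (om p)) (hi : iIndepFun om P) (hlaw : ∀ p, P.map (om p) = μ)
    {C0 κ K θ1 : ℝ}
    (hTOR : ∀ (N0 M : ℕ) [NeZero M], M = 4 * N0 + 4 →
      ∃ (W : Wlk (ZMod M × ZMod M) C0 N0) (φ : ℤ × ℤ → ZMod M × ZMod M)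
        (lft : ZMod M × ZMod M → ℤ × ℤ),
      IsTor W ∧ Function.Injective lft ∧
      (∀ z : ℤ × ℤ, |z.1| + |z.2| ≤ N0 → lft (φ z) = z) ∧
      (∀ z v, W.K 1 (φ z) v = 1 / 4 * ∑ e : Fin 4, if φ (z + stp e) = v then (1 : ℝ) else 0) ∧
      W.cls 0 (φ 0) ∧ W.d (φ 0) = 0)
    (hMQ : ∀ (N0 M : ℕ) [NeZero M] (W : Wlk (ZMod M × ZMod M) C0 N0), IsTor W →
      ∀ (Ω : Type) [MeasurableSpace Ω] (P : Measure Ω) [IsProbabilityMeasure P] (s2 : ℝ)
        (η : ℕ → ZMod M × ZMod M → Ω → ℝ) (N : ℕ), 0 < s2 → s2 ≤ 1 / K →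
      NoiseI P s2 κ η → W.cls 0 0 → 4 * N ≤ N0 → -θ1 ≤ 1 / s2 - RR N → 1 / s2 - RR N ≤ θ1 →
      ∃ D : Ω → ℝ, Sq P D (K * Real.log (1 / s2)) ∧ ∫ ω, D ω ∂P = 0 ∧
        1 / K * Real.log (1 / s2) - K ≤ ∫ ω, (D ω) ^ 2 ∂P ∧
        Sq P (fun ω => Real.log (Zr W (cfg η ω) N 0) + 1 / 2 * Real.log (1 / s2) - D ω) K)
    (n : ℕ) (b : ℝ)
    (h4 : Integrable (fun x => (Real.exp (b * x - Lam μ b) - 1) ^ 4) μ)
    (h1 : ∫ x, (Real.exp (b * x - Lam μ b) - 1) ∂μ = 0)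
    (h2 : ∫ x, (Real.exp (b * x - Lam μ b) - 1) ^ 2 ∂μ = sig2 μ b)
    (h3 : |∫ x, (Real.exp (b * x - Lam μ b) - 1) ^ 3 ∂μ| ≤ κ * sig2 μ b)
    (h5 : ∫ x, (Real.exp (b * x - Lam μ b) - 1) ^ 4 ∂μ ≤ κ * sig2 μ b)
    (h6 : Integrable (fun x => (1 + (Real.exp (b * x - Lam μ b) - 1))⁻¹) μ)
    (h7 : ∫ x, (1 + (Real.exp (b * x - Lam μ b) - 1))⁻¹ ∂μ ≤ 2)
    (hs : 0 < sig2 μ b) (hsK : sig2 μ b ≤ 1 / K) (ha : -θ1 ≤ 1 / sig2 μ b - RR n)
    (hb : 1 / sig2 μ b - RR n ≤ θ1) :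
    ∃ D : Ω → ℝ, Sq P D (K * Real.log (1 / sig2 μ b)) ∧ ∫ ω, D ω ∂P = 0 ∧
      1 / K * Real.log (1 / sig2 μ b) - K ≤ ∫ ω, (D ω) ^ 2 ∂P ∧
      Sq P (fun ω => Real.log (PF (Lam μ b) b n (fun p => om p ω)) +
        1 / 2 * Real.log (1 / sig2 μ b) - D ω) K := by
  have : NeZero (4 * (4 * n) + 4) := ⟨by omega⟩
  obtain ⟨W, φ, lft, hT, hl, hlft, hK, hcls, hd⟩ := hTOR (4 * n) (4 * (4 * n) + 4) rfl
  have hφ : φ 0 = 0 := by
    rw [hT.d_eq] at hd
    have a1 : ((φ 0).1.valMinAbs : ℝ) ^ 2 = 0 := by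
      nlinarith [sq_nonneg ((φ 0).1.valMinAbs : ℝ), sq_nonneg ((φ 0).2.valMinAbs : ℝ)]
    have a2 : ((φ 0).2.valMinAbs : ℝ) ^ 2 = 0 := by
      nlinarith [sq_nonneg ((φ 0).1.valMinAbs : ℝ), sq_nonneg ((φ 0).2.valMinAbs : ℝ)]
    have b1 : (φ 0).1.valMinAbs = 0 := by exact_mod_cast pow_eq_zero_iff (two_ne_zero) |>.1 a1
    have b2 : (φ 0).2.valMinAbs = 0 := by exact_mod_cast pow_eq_zero_iff (two_ne_zero) |>.1 a2
    exact Prod.ext ((ZMod.valMinAbs_eq_zero _).1 b1) ((ZMod.valMinAbs_eq_zero _).1 b2)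
  have hN := Pool.Agent.H791.QC.noise_of μ P om hm hi hlaw lft hl n b κ h4 h1 h2 h3 h5
  have hg : Measurable (fun x : ℝ => (1 + (Real.exp (b * x - Lam μ b) - 1))⁻¹) := by fun_prop
  have hNI : NoiseI P (sig2 μ b) κ
      (fun (j : ℕ) (v : ZMod (4 * (4 * n) + 4) × ZMod (4 * (4 * n) + 4)) (x : Ω) =>
      Real.exp (b * om (if j ≤ n then n + 1 - j else j + 1, lft v) x - Lam μ b) - 1) := by
    refine ⟨hN, fun j v => ⟨?_, ?_⟩⟩
    · have h8 : Integrable (fun x => (1 + (Real.exp (b * x - Lam μ b) - 1))⁻¹)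
          (P.map (om (if j ≤ n then n + 1 - j else j + 1, lft v))) := by
        rw [hlaw]
        exact h6
      exact (integrable_map_measure hg.aestronglyMeasurable (hm _).aemeasurable).1 h8
    · have h8 := integral_map (μ := P) (φ := om (if j ≤ n then n + 1 - j else j + 1, lft v))
        (hm _).aemeasurable (f := fun x => (1 + (Real.exp (b * x - Lam μ b) - 1))⁻¹)
        hg.aestronglyMeasurable
      rw [hlaw] at h8
      rw [h8] at h7
      exact h7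
  rw [hφ] at hcls
  obtain ⟨D, hD1, hD2, hD3, hD4⟩ := hMQ (4 * n) (4 * (4 * n) + 4) W hT Ω P (sig2 μ b) _ n hs hsK
    hNI hcls le_rfl ha hb
  refine ⟨D, hD1, hD2, hD3, ?_⟩
  have hfun : (fun ω => Real.log (PF (Lam μ b) b n (fun p => om p ω)) +
        1 / 2 * Real.log (1 / sig2 μ b) - D ω) =
      fun ω => Real.log (Zr W (cfg (fun (j : ℕ)
        (v : ZMod (4 * (4 * n) + 4) × ZMod (4 * (4 * n) + 4)) (x : Ω) =>
      Real.exp (b * om (if j ≤ n then n + 1 - j else j + 1, lft v) x - Lam μ b) - 1) ω) n 0) +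
        1 / 2 * Real.log (1 / sig2 μ b) - D ω := by
    funext ω
    have h8 := hLINK C0 n (4 * n) _ W φ lft (by omega) hlft hK (Lam μ b) b (fun p => om p ω)
    rw [hφ] at h8
    rw [← h8]
    rfl
  rw [hfun]
  exact hD4

/-! ## the size of the variance parameter -/

theorem size (s R l B K : ℝ) (hs : 0 < s) (hK : 1 ≤ K) (hB : 0 ≤ B) (hl1 : 1 ≤ l)
    (hlB : 2 * (B + 1) ≤ l) (hlK : 6 * K ≤ l) (ha : |(s * R - 1) * l| ≤ B + 1)
    (hR1 : R ≤ 1 / 2 + 1 / 2 * l) (hR2 : 1 / 4 * l ≤ R) :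
    s ≤ 1 / K ∧ |1 / s - R| ≤ 2 * (B + 1) ∧ |Real.log (1 / s) - Real.log l| ≤ 7 := by
  have hl0 : 0 < l := by linarith
  have hR0 : 0 < R := by linarith
  have h1 : |s * R - 1| ≤ 1 / 2 := by
    rw [abs_mul, abs_of_pos hl0] at ha
    have h2 : |s * R - 1| * l ≤ 1 / 2 * l := by linarith
    exact le_of_mul_le_mul_right h2 hl0
  have h2 := abs_le.1 h1
  have h3 : 1 / s ≤ 2 * l := by
    rw [div_le_iff₀ hs]
    nlinarith
  have h4 : l / 8 ≤ 1 / s := by
    rw [le_div_iff₀ hs]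
    nlinarith
  have hs' : 0 < 1 / s := by positivity
  refine ⟨?_, ?_, ?_⟩
  · rw [le_div_iff₀ (by linarith)]
    have h5 : s * l ≤ 6 := by nlinarith
    nlinarith
  · have h5 : 1 / s - R = -((s * R - 1) * (1 / s)) := by
      field_simp
      ring
    rw [h5, abs_neg, abs_mul, abs_of_pos hs']
    rw [abs_mul, abs_of_pos hl0] at ha
    calc |s * R - 1| * (1 / s) ≤ |s * R - 1| * (2 * l) :=
          mul_le_mul_of_nonneg_left h3 (abs_nonneg _)
      _ ≤ 2 * (B + 1) := by linarith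
  · have h5 : Real.log (1 / s) ≤ Real.log 2 + Real.log l := by
      rw [← Real.log_mul (by norm_num) hl0.ne']
      exact Real.log_le_log hs' h3
    have h6 : Real.log l - Real.log 8 ≤ Real.log (1 / s) := by
      rw [← Real.log_div hl0.ne' (by norm_num)]
      exact Real.log_le_log (by positivity) h4
    have h7 : Real.log 2 ≤ 2 - 1 := Real.log_le_sub_one_of_pos (by norm_num)
    have h8 : Real.log 8 ≤ 8 - 1 := Real.log_le_sub_one_of_pos (by norm_num)
    rw [abs_le]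
    constructor <;> linarith

theorem t_FINF : S_FINF := by
  intro hMQ hTOR hLAW hLINK hRR _ μ _ hexp hmean hvar Λ hΛ R hR θ β hβ hβ0 hlim Ω _ _ om hm hi
    hlaw L hL
  obtain ⟨C0, hC0, hTOR⟩ := hTOR
  obtain ⟨κ, b0, hκ, hb0, hsmall⟩ := hLAW μ hexp hmean hvar
  obtain ⟨K, hK, hMQ⟩ := hMQ C0 κ (2 * (|θ| + 1)) hC0 (by linarith) (by positivity)
  have hRRR : ∀ N, R N = RR N := by
    intro N
    rw [hR, RR]
    exact Finset.sum_congr rfl fun n _ => card_eq n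
  have hsig : ∀ b, Real.exp (Λ (2 * b) - 2 * Λ b) - 1 = sig2 μ b := by
    intro b
    rw [hΛ, hΛ]
    rfl
  have hLPF : ∀ N, L N = fun a => Real.log (PF (Lam μ (β N)) (β N) N (fun p => om p a)) := by
    intro N
    funext a
    rw [hL, PF]
    congr 2
    refine Finset.sum_congr rfl fun s _ => ?_
    congr 1
    refine Finset.sum_congr rfl fun n _ => ?_
    have e1 : Λ (β N) = Lam μ (β N) := by
      rw [hΛ]
      rfl
    have e2 : pos s ((n : ℕ) + 1) = ∑ i ∈ Finset.univ.filter (fun i : Fin N => i ≤ n),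
        (![((1 : ℤ), (0 : ℤ)), (-1, 0), (0, 1), (0, -1)] : Fin 4 → ℤ × ℤ) (s i) := by
      unfold pos
      refine Finset.sum_congr ?_ fun i _ => rfl
      ext i
      simp only [Finset.mem_filter, Finset.mem_univ, true_and]
      rw [Nat.lt_succ_iff, Fin.le_def]
    rw [e1, e2]
  have hlim' : Tendsto (fun N : ℕ => (sig2 μ (β N) * RR N - 1) * Real.log (N : ℝ)) atTop (𝓝 θ) := by
    refine hlim.congr fun N => ?_
    rw [hsig, hRRR]
  have hlog : Tendsto (fun N : ℕ => Real.log (N : ℝ)) atTop atTop :=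
    Real.tendsto_log_atTop.comp tendsto_natCast_atTop_atTop
  have hll : Tendsto (fun N : ℕ => Real.log (Real.log (N : ℝ))) atTop atTop :=
    Real.tendsto_log_atTop.comp hlog
  have e1 : ∀ᶠ N : ℕ in atTop, β N ≤ b0 :=
    (hβ0.eventually_lt_const hb0).mono fun N h => h.le
  have e2 : ∀ᶠ N : ℕ in atTop,
      |(sig2 μ (β N) * RR N - 1) * Real.log (N : ℝ)| ≤ |θ| + 1 :=
    (hlim'.abs.eventually_lt_const (lt_add_one _)).mono fun N h => h.le
  have main : ∀ᶠ N : ℕ in atTop,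
      |(∫ a, L N a ∂(volume : Measure Ω)) + 1 / 2 * Real.log (1 / sig2 μ (β N))| ≤ (1 + K) / 2 ∧
      variance (L N) (volume : Measure Ω) ≤ 2 * (K * Real.log (1 / sig2 μ (β N))) + 2 * K ∧
      (1 / K * Real.log (1 / sig2 μ (β N)) - K) / 2 - K ≤ variance (L N) (volume : Measure Ω) ∧
      |Real.log (1 / sig2 μ (β N)) - Real.log (Real.log (N : ℝ))| ≤ 7 := by
    filter_upwards [e1, e2, hlog.eventually_ge_atTop 1,
      hlog.eventually_ge_atTop (2 * (|θ| + 1)), hlog.eventually_ge_atTop (6 * K),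
      eventually_ge_atTop 1] with N h1 h2 h3 h4 h5 h6
    obtain ⟨i4, i1, i2, i3, i5, i6, i7, i8⟩ := hsmall (β N) (hβ N).le h1
    have hs := i8 (hβ N)
    have hN0 : (0 : ℝ) < N := by exact_mod_cast h6
    have hR2 : 1 / 4 * Real.log (N : ℝ) ≤ RR N := by
      have h7 := Pool.Agent.H791.QC.RR_lower hRR N
      have h8 : Real.log (N : ℝ) ≤ Real.log ((N : ℝ) + 1) := Real.log_le_log hN0 (by linarith)
      linarith
    obtain ⟨j1, j2, j3⟩ := size (sig2 μ (β N)) (RR N) (Real.log (N : ℝ)) |θ| K hs hK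
      (abs_nonneg _) h3 h4 h5 h2 (hRR.2.2.2.2.2.2 N h6) hR2
    have j4 := abs_le.1 j2
    obtain ⟨D, hD1, hD2, hD3, hD4⟩ := key hLINK μ (volume : Measure Ω) om hm hi hlaw hTOR hMQ N
      (β N) i4 i1 i2 i3 i5 i6 i7 hs j1 j4.1 j4.2
    rw [hLPF N]
    obtain ⟨k1, k2, k3⟩ := vari (volume : Measure Ω)
      (fun a => Real.log (PF (Lam μ (β N)) (β N) N (fun p => om p a))) D
      (1 / 2 * Real.log (1 / sig2 μ (β N))) _ _ K hD1 hD2 hD3 hD4
    exact ⟨k1, k2, k3, j3⟩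
  have hK0 : 0 < K := by linarith
  refine ⟨?_, 1 / (4 * K), 4 * K, by positivity, by positivity, ?_⟩
  · have he : Tendsto (fun N : ℕ => ((∫ a, L N a ∂(volume : Measure Ω)) +
        Real.log (Real.log (N : ℝ)) / 2) / Real.log (Real.log (N : ℝ))) atTop (𝓝 0) := by
      have hb : Tendsto (fun N : ℕ => ((1 + K) / 2 + 7 / 2) / Real.log (Real.log (N : ℝ))) atTop
          (𝓝 0) := Tendsto.const_div_atTop hll _
      refine squeeze_zero_norm' ?_ hb
      filter_upwards [main, hll.eventually_gt_atTop 0] with N h1 h2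
      obtain ⟨k1, _, _, k4⟩ := h1
      rw [Real.norm_eq_abs, abs_div, abs_of_pos h2]
      apply div_le_div_of_nonneg_right _ h2.le
      rw [abs_le] at k1 k4 ⊢
      constructor <;> linarith
    have he2 := he.sub_const (1 / 2)
    have e3 : (0 : ℝ) - 1 / 2 = -1 / 2 := by norm_num
    rw [e3] at he2
    refine he2.congr' ?_
    filter_upwards [hll.eventually_gt_atTop 0] with N h2
    field_simp
    ring
  · filter_upwards [main, hll.eventually_ge_atTop 8, hll.eventually_ge_atTop (14 + 6 * K ^ 2)]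
      with N h1 h2 h3
    obtain ⟨_, k2, k3, k4⟩ := h1
    rw [abs_le] at k4
    constructor
    · refine le_trans ?_ k3
      have h4 : 1 / K * (Real.log (Real.log (N : ℝ)) - 7) ≤
          1 / K * Real.log (1 / sig2 μ (β N)) :=
        mul_le_mul_of_nonneg_left (by linarith) (by positivity)
      have h5 : 1 / (4 * K) * Real.log (Real.log (N : ℝ)) ≤
          (1 / K * (Real.log (Real.log (N : ℝ)) - 7) - K) / 2 - K := by
        have h6 : (1 / K * (Real.log (Real.log (N : ℝ)) - 7) - K) / 2 - K -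
            1 / (4 * K) * Real.log (Real.log (N : ℝ)) =
            (Real.log (Real.log (N : ℝ)) - (14 + 6 * K ^ 2)) / (4 * K) := by
          field_simp
          ring
        have h7 : 0 ≤ (Real.log (Real.log (N : ℝ)) - (14 + 6 * K ^ 2)) / (4 * K) :=
          div_nonneg (by linarith) (by positivity)
        linarith
      linarith
    · refine k2.trans ?_
      have h4 : K * Real.log (1 / sig2 μ (β N)) ≤ K * (Real.log (Real.log (N : ℝ)) + 7) :=
        mul_le_mul_of_nonneg_left (by linarith) hK0.le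
      nlinarith

end Pool.Agent.H790.CW
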